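import Pool.Agent.Y547.CH.IsoB
import Pool.Agent.Y706.CH.Stm5

/-!
# Project CH (MP_9b502d_nt): the critical orbits of isotrivial maps have bounded height
-/

namespace Pool.Agent.Y547.CH

open Pool.Agent.W277.UB Pool.Agent.W277.UG Pool.Agent.W277.UH Pool.Agent.Y706.CH Finset Polynomial
open Pool.Agent.W277.UB.PlaceData (pole_nonneg pole_zero pole_of_ne)

universe u v

lemma ratX_ne (k : Type*) [Field k] (c : k) : (RatFunc.X : RatFunc k) ≠
    algebraMap k (RatFunc k) c := by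
  intro h
  rw [RatFunc.algebraMap_eq_C, ← RatFunc.algebraMap_X, ← RatFunc.algebraMap_C] at h
  exact Polynomial.X_ne_C c (RatFunc.algebraMap_injective k h)

theorem t_ISO (hPD : S_PD.{u, u}) : S_ISO.{u} := by
  classical
  obtain ⟨Cc, hC⟩ := hPD
  intro k M _ _ _ _ _ _ _ hcl d hd p q hmax hco hcc Cr hCr i
  obtain ⟨a, b, c, e, hD, u, w, huw, hu, hw, heq⟩ := hcc
  have : CharZero M := charZero_of_injective_algebraMap (algebraMap k M).injective
  have : CharZero (RatFunc k) := charZero_of_injective_algebraMap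
    (algebraMap k (RatFunc k)).injective
  have hXc : ∀ c : k, (algebraMap (RatFunc k) M RatFunc.X) ≠ algebraMap k M c := by
    intro c hc
    rw [IsScalarTower.algebraMap_apply k (RatFunc k) M] at hc
    exact ratX_ne k c ((algebraMap (RatFunc k) M).injective hc)
  obtain ⟨g, -, hggen, hgc⟩ := Pool.Agent.W277.UD.exists_gen (k := k) (F := RatFunc k) (E := M)
    Set.univ (by
      rw [eq_top_iff]
      intro x _
      exact IntermediateField.subset_adjoin _ _ (Set.mem_univ x))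
    (algebraMap (RatFunc k) M RatFunc.X) (Set.mem_univ _) hXc
  obtain ⟨Q, -, hQ2⟩ := hC k M hcl g hggen hgc
  set T : Finset M := {a, b, c, e} with hT
  set S0 := sp Q T with hS0
  set H0 : ℝ := (Cc (Module.finrank (RatFunc k) M) : ℝ) *
    ∑ v ∈ S0, (Q.wt v : ℝ) * ∑ t ∈ T, (Q.pole v t : ℝ) with hH0
  have hwt : ∀ v, (0 : ℝ) ≤ Q.wt v := fun v => by exact_mod_cast Q.wt_nonneg v
  refine ⟨⌈H0⌉₊, ?_⟩
  intro m
  obtain ⟨s, σ, hσ⟩ := orbK k hcl d hd p q hmax hco a b c e hD u w huw hu hw heq Cr hCr i m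
  obtain ⟨Z, hZ⟩ : ∃ Z, Z = (bK d p q)^[m] (Cr i) := ⟨_, rfl⟩
  rw [← hZ] at hσ ⊢
  unfold hpt
  split_ifs with hZ2
  · exact Nat.zero_le _
  set σ1 := algebraMap k M σ.1 with hσ1
  set σ2 := algebraMap k M σ.2 with hσ2
  set N : M := e * σ1 - b * σ2 with hN
  set Dn : M := a * σ2 - c * σ1 with hDn'
  have g1 : a * Z.1 + b * Z.2 = s * σ1 := by
    have := congrArg Prod.fst hσ
    simpa [ph] using this
  have g2 : c * Z.1 + e * Z.2 = s * σ2 := by
    have := congrArg Prod.snd hσ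
    simpa [ph] using this
  have e1 : (a * e - b * c) * Z.1 = s * N := by
    rw [hN]
    linear_combination e * g1 - b * g2
  have e2 : (a * e - b * c) * Z.2 = s * Dn := by
    rw [hDn']
    linear_combination a * g2 - c * g1
  have hs : s ≠ 0 := by
    intro h
    rw [h, zero_mul] at e2
    exact (mul_ne_zero hD hZ2) e2
  have hDn : Dn ≠ 0 := by
    intro h
    rw [h, mul_zero] at e2
    exact (mul_ne_zero hD hZ2) e2
  have hdiv : Z.1 / Z.2 = N / Dn := by
    rw [div_eq_div_iff hZ2 hDn]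
    apply mul_left_cancel₀ (mul_ne_zero hD hs)
    linear_combination s * Dn * e1 - s * N * e2
  rw [hdiv]
  have hmem : ∀ (r : k) (x : M), x ∈ T → x * algebraMap k M r ∈ Submodule.span k (T : Set M) := by
    intro r x hx
    rw [mul_comm, ← Algebra.smul_def]
    exact Submodule.smul_mem _ _ (Submodule.subset_span hx)
  have hNs : N ∈ Submodule.span k (T : Set M) :=
    Submodule.sub_mem _ (hmem _ _ (by simp [hT])) (hmem _ _ (by simp [hT]))
  have hDs : Dn ∈ Submodule.span k (T : Set M) :=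
    Submodule.sub_mem _ (hmem _ _ (by simp [hT])) (hmem _ _ (by simp [hT]))
  have hord : ∀ v x, x ∈ Submodule.span k (T : Set M) → x ≠ 0 →
      -Q.ord v x ≤ ∑ t ∈ T, Q.pole v t := by
    intro v x hx hx0
    have h1 := Pool.Agent.Y523.BI.pole_span Q v T hx
    have h2 : -Q.ord v x ≤ Q.pole v x := by
      rw [pole_of_ne hx0]
      exact le_max_right _ _
    exact h2.trans h1
  have hvo : ∀ v, -(vo (Q.ord v) (N, Dn)) ≤ ∑ t ∈ T, Q.pole v t := by
    intro v
    unfold vo
    by_cases hN0 : N = 0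
    · rw [if_pos (show ((N, Dn) : M × M).1 = 0 from hN0)]
      exact hord v Dn hDs hDn
    · rw [if_neg (show ¬ ((N, Dn) : M × M).1 = 0 from hN0),
        if_neg (show ¬ ((N, Dn) : M × M).2 = 0 from hDn)]
      have h1 := hord v Dn hDs hDn
      have h2 := hord v N hNs hN0
      simp only
      omega
  have hvoR : ∀ v, (-(vo (Q.ord v) (N, Dn) : ℝ)) ≤ ∑ t ∈ T, (Q.pole v t : ℝ) := by
    intro v
    exact_mod_cast hvo v
  obtain ⟨S', hS'1, hS'2⟩ := vo_sum Q (N, Dn) hDn (S0 ∪ sp Q {N, Dn}) (by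
    intro v hv
    rw [Finset.mem_union, not_or] at hv
    unfold vo
    have h1 := sp_ord Q _ v hv.2 Dn (by simp) hDn
    by_cases hN0 : N = 0
    · rw [if_pos (show ((N, Dn) : M × M).1 = 0 from hN0)]
      exact h1
    · rw [if_neg (show ¬ ((N, Dn) : M × M).1 = 0 from hN0),
        if_neg (show ¬ ((N, Dn) : M × M).2 = 0 from hDn)]
      have h2 := sp_ord Q _ v hv.2 N (by simp) hN0
      simp only
      rw [h1, h2, min_self])
  have h1 := (hQ2 (N / Dn) S' hS'1).2
  have h2 : (Module.finrank (IntermediateField.adjoin k {N / Dn}) M : ℝ) ≤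
      Cc (Module.finrank (RatFunc k) M) * ∑ v ∈ S', (Q.wt v : ℝ) * (Q.pole v (N / Dn) : ℝ) := by
    exact_mod_cast h1
  have h3 : ∑ v ∈ S', (Q.wt v : ℝ) * (Q.pole v (N / Dn) : ℝ) ≤
      ∑ v ∈ S0, (Q.wt v : ℝ) * ∑ t ∈ T, (Q.pole v t : ℝ) := by
    have h4 : ∑ v ∈ S0, (Q.wt v : ℝ) * ∑ t ∈ T, (Q.pole v t : ℝ) =
        ∑ v ∈ S0 ∪ sp Q {N, Dn}, (Q.wt v : ℝ) * ∑ t ∈ T, (Q.pole v t : ℝ) := by
      apply Finset.sum_subset Finset.subset_union_left
      intro v _ hv
      have h5 : ∑ t ∈ T, (Q.pole v t : ℝ) = 0 := by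
        apply Finset.sum_eq_zero
        intro t ht
        rw [sp_pole Q _ v hv t ht]
        simp
      rw [h5, mul_zero]
    rw [h4]
    refine (le_of_eq hS'2.symm).trans ?_
    exact Finset.sum_le_sum fun v _ => mul_le_mul_of_nonneg_left (hvoR v) (hwt v)
  have h6 : (Module.finrank (IntermediateField.adjoin k {N / Dn}) M : ℝ) ≤ H0 :=
    h2.trans (mul_le_mul_of_nonneg_left h3 (Nat.cast_nonneg _))
  have h7 := h6.trans (Nat.le_ceil H0)
  exact_mod_cast h7

end Pool.Agent.Y547.CH
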