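import Pool.Agent.Y195.CH.CRT

/-!
# Project CH (MP_9b502d_nt): isotrivial maps, the algebra
-/

namespace Pool.Agent.Y547.CH

open Pool.Agent.W277.UH Pool.Agent.Y706.CH Finset Polynomial

universe u v

lemma ext0 {K : Type*} [Field K] [Infinite K] (P Q R : K[X]) (hR : R ≠ 0)
    (h : ∀ t, R.eval t ≠ 0 → P.eval t = Q.eval t) : P.eval 0 = Q.eval 0 := by
  have h1 : R * (P - Q) = 0 := by
    apply Polynomial.funext
    intro t
    rw [eval_mul, eval_sub, eval_zero]
    by_cases ht : R.eval t = 0
    · rw [ht, zero_mul]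
    · rw [h t ht, sub_self, mul_zero]
  have h2 : P = Q := sub_eq_zero.mp ((mul_eq_zero.mp h1).resolve_left hR)
  rw [h2]

lemma ext1 {K : Type*} [Field K] [Infinite K] (P Q R : K[X]) (hR : R ≠ 0)
    (h : ∀ t, R.eval t ≠ 0 → P.eval t = Q.eval t) : P = Q := by
  have h1 : R * (P - Q) = 0 := by
    apply Polynomial.funext
    intro t
    rw [eval_mul, eval_sub, eval_zero]
    by_cases ht : R.eval t = 0
    · rw [ht, zero_mul]
    · rw [h t ht, sub_self, mul_zero]
  exact sub_eq_zero.mp ((mul_eq_zero.mp h1).resolve_left hR)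

lemma lin_ne {K : Type*} [Field K] (r s : K) (h : s ≠ 0) : (C r + X * C s : K[X]) ≠ 0 := by
  intro h1
  have h2 := congrArg (fun f : K[X] => f.coeff 1) h1
  simp only [coeff_add, coeff_C, coeff_X_mul, coeff_zero] at h2
  simp at h2
  exact h h2

/-- the linear map -/
def ph {K : Type*} [Field K] (a b c e : K) (Z : K × K) : K × K :=
  (a * Z.1 + b * Z.2, c * Z.1 + e * Z.2)

lemma hev_C {K : Type*} [Field K] (d : ℕ) (p q : K[X]) (a b : K) (Z : K × K) :
    hev d (C a * p + C b * q) Z = a * hev d p Z + b * hev d q Z := by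
  unfold hev
  rw [Finset.mul_sum, Finset.mul_sum, ← Finset.sum_add_distrib]
  apply Finset.sum_congr rfl
  intro i _
  rw [coeff_add, coeff_C_mul, coeff_C_mul]
  ring

lemma ph_bK {K : Type*} [Field K] (d : ℕ) (p q : K[X]) (a b c e : K) (Z : K × K) :
    ph a b c e (bK d p q Z) =
      (hev d (C a * p + C b * q) Z, hev d (C c * p + C e * q) Z) := by
  rw [hev_C, hev_C]
  rfl

/-- the composed polynomial -/
noncomputable def cm {K : Type*} [Field K] (d : ℕ) (f : K[X]) (a b c e : K) : K[X] :=
  hc d f (C a * X + C b) (C c * X + C e)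

lemma cm_eval {K : Type*} [Field K] (d : ℕ) (f : K[X]) (a b c e x : K) :
    (cm d f a b c e).eval x = hev d f (ph a b c e (x, 1)) := by
  unfold cm
  rw [hc_eval]
  simp [ph]

lemma cm_eval' {K : Type*} [Field K] (d : ℕ) (f : K[X]) (hf : f.natDegree ≤ d) (a b c e x : K)
    (hz : c * x + e ≠ 0) :
    (cm d f a b c e).eval x = (c * x + e) ^ d * f.eval ((a * x + b) / (c * x + e)) := by
  rw [cm_eval, hev_eval d f hf]
  · simp [ph]
  · simpa [ph] using hz

lemma cm_degree {K : Type*} [Field K] (d : ℕ) (f : K[X]) (a b c e : K) :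
    (cm d f a b c e).natDegree ≤ d := by
  have h := hc_degree d 1 f (C a * X + C b) (C c * X + C e) natDegree_linear_le
    natDegree_linear_le
  rw [mul_one] at h
  exact h

lemma cm_deriv {K : Type*} [Field K] (d : ℕ) (f : K[X]) (hf : f.natDegree ≤ d) (a b c e x : K)
    (hz : c * x + e ≠ 0) (hd : 1 ≤ d) : (c * x + e) * (derivative (cm d f a b c e)).eval x =
      d * c * (cm d f a b c e).eval x + (a * e - b * c) * (c * x + e) ^ (d - 1) *
        (derivative f).eval ((a * x + b) / (c * x + e)) := by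
  have h1 : (derivative f).eval ((a * x + b) / (c * x + e)) =
      ∑ i ∈ Finset.range (d + 1), f.coeff i * i * ((a * x + b) / (c * x + e)) ^ (i - 1) := by
    rw [derivative_eval, sum_over_range' _ _ (d + 1) (by omega)]
    intro n
    simp
  have h2 : cm d f a b c e = ∑ i ∈ Finset.range (d + 1), C (f.coeff i) * (C a * X + C b) ^ i *
      (C c * X + C e) ^ (d - i) := by
    unfold cm hc hev
    apply Finset.sum_congr rfl
    intro i _
    rw [coeff_map]
  rw [h1, h2, derivative_sum, eval_finsetSum, eval_finsetSum, Finset.mul_sum, Finset.mul_sum,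
    Finset.mul_sum, ← Finset.sum_add_distrib]
  apply Finset.sum_congr rfl
  intro i hi
  rw [Finset.mem_range] at hi
  rw [derivative_mul, derivative_C_mul, derivative_pow, derivative_pow]
  simp only [derivative_add, derivative_mul, derivative_C, derivative_X, eval_add,
    eval_mul, eval_pow, eval_C, eval_X, zero_mul, zero_add, mul_one, add_zero,
    map_natCast, eval_natCast]
  rcases Nat.eq_zero_or_pos i with h0 | h0
  · subst h0
    simp only [Nat.cast_zero, zero_mul, mul_zero, pow_zero, mul_one, zero_add, Nat.sub_zero]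
    obtain ⟨m, rfl⟩ : ∃ m, d = m + 1 := ⟨d - 1, by omega⟩
    simp only [Nat.add_sub_cancel]
    ring
  · obtain ⟨j, rfl⟩ : ∃ j, i = j + 1 := ⟨i - 1, by omega⟩
    obtain ⟨m, rfl⟩ : ∃ m, d = j + 1 + m := ⟨d - (j + 1), by omega⟩
    have e1 : j + 1 + m - (j + 1) = m := by omega
    have e2 : j + 1 + m - 1 = j + m := by omega
    have e3 : j + 1 - 1 = j := by omega
    rw [e1, e2, e3, div_pow]
    have e4 : (a * e - b * c) * (c * x + e) ^ (j + m) *
        (f.coeff (j + 1) * ((j + 1 : ℕ) : K) * ((a * x + b) ^ j / (c * x + e) ^ j)) =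
        (a * e - b * c) * (c * x + e) ^ m *
          (f.coeff (j + 1) * ((j + 1 : ℕ) : K) * (a * x + b) ^ j) := by
      rw [pow_add]
      field_simp
    rw [e4]
    rcases m with _ | m
    · simp only [Nat.cast_zero, zero_mul, mul_zero, pow_zero, mul_one, add_zero]
      push_cast
      ring
    · have e5 : m + 1 - 1 = m := by omega
      rw [e5]
      push_cast
      ring

lemma cm_wr {K : Type*} [Field K] (d : ℕ) (f g : K[X]) (hf : f.natDegree ≤ d)
    (hg : g.natDegree ≤ d) (a b c e x : K) (hz : c * x + e ≠ 0) (hd : 1 ≤ d) :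
    (derivative (cm d f a b c e) * cm d g a b c e - cm d f a b c e *
      derivative (cm d g a b c e)).eval x = (a * e - b * c) * (c * x + e) ^ (2 * d - 2) *
      (derivative f * g - f * derivative g).eval ((a * x + b) / (c * x + e)) := by
  have h1 := cm_deriv d f hf a b c e x hz hd
  have h2 := cm_deriv d g hg a b c e x hz hd
  have h3 := cm_eval' d f hf a b c e x hz
  have h4 := cm_eval' d g hg a b c e x hz
  apply mul_left_cancel₀ hz
  rw [eval_sub, eval_mul, eval_mul, eval_sub, eval_mul, eval_mul]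
  obtain ⟨m, rfl⟩ : ∃ m, d = m + 1 := ⟨d - 1, by omega⟩
  have e3 : m + 1 - 1 = m := by omega
  have e4 : 2 * (m + 1) - 2 = m + m := by omega
  rw [e3] at h1 h2
  rw [e4, pow_add]
  rw [h3] at h1 ⊢
  rw [h4] at h2 ⊢
  rw [pow_succ] at *
  set z := c * x + e
  set y := (a * x + b) / z
  linear_combination (z ^ m * z * eval y g) * h1 - (z ^ m * z * eval y f) * h2

end Pool.Agent.Y547.CH
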