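import Pool.Agent.Y547.CH.IsoA

/-!
# Project CH (MP_9b502d_nt): isotrivial maps, vectors over the constants
-/

namespace Pool.Agent.Y547.CH

open Pool.Agent.W277.UH Pool.Agent.Y706.CH Finset Polynomial

universe u v

lemma cm_inj {K : Type*} [Field K] [Infinite K] (d : ℕ) (f : K[X]) (hf : f.natDegree ≤ d)
    (a b c e : K) (hD : a * e - b * c ≠ 0) (h : cm d f a b c e = 0) : f = 0 := by
  have hac : (C a - C c * X : K[X]) ≠ 0 := by
    intro h1
    have h2 := congrArg (fun f : K[X] => f.coeff 0) h1
    have h3 := congrArg (fun f : K[X] => f.coeff 1) h1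
    simp only [coeff_sub, coeff_C, coeff_C_mul, coeff_X, coeff_zero] at h2 h3
    simp at h2 h3
    apply hD
    rw [h2, h3]
    ring
  apply ext1 f 0 _ hac
  intro y hy
  have hy' : a - c * y ≠ 0 := by simpa using hy
  have h1 : c * ((e * y - b) / (a - c * y)) + e = (a * e - b * c) / (a - c * y) := by
    field_simp
    ring
  have h2 : a * ((e * y - b) / (a - c * y)) + b = (a * e - b * c) * y / (a - c * y) := by
    rw [eq_div_iff hy', add_mul, mul_assoc, div_mul_cancel₀ _ hy']
    ring
  have h3 : c * ((e * y - b) / (a - c * y)) + e ≠ 0 := by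
    rw [h1]
    exact div_ne_zero hD hy'
  have h4 := cm_eval' d f hf a b c e _ h3
  rw [h, eval_zero] at h4
  have h5 := (mul_eq_zero.mp h4.symm).resolve_left (pow_ne_zero _ h3)
  have h6 : (a * ((e * y - b) / (a - c * y)) + b) / (c * ((e * y - b) / (a - c * y)) + e) = y := by
    rw [h1, h2]
    field_simp
  rw [h6] at h5
  rw [h5, eval_zero]

lemma hev_mapF {F K : Type*} [Field F] [Field K] (ι : F →+* K) (d : ℕ) (p : F[X])
    (Z : F × F) : hev d (p.map ι) ((ι Z.1, ι Z.2) : K × K) = ι (hev d p Z) := by
  unfold hev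
  rw [map_sum]
  apply Finset.sum_congr rfl
  intro i _
  simp

lemma ph_smul {K : Type*} [Field K] (a b c e s : K) (Z : K × K) :
    ph a b c e (s • Z) = s • ph a b c e Z := by
  unfold ph
  ext
  · simp only [Prod.smul_fst, Prod.smul_snd, smul_eq_mul]
    ring
  · simp only [Prod.smul_fst, Prod.smul_snd, smul_eq_mul]
    ring

lemma vec_eq {K : Type*} [Field K] (Z : K × K) (h : Z.2 ≠ 0) :
    Z = Z.2 • ((Z.1 / Z.2, 1) : K × K) := by
  ext
  · simp only [Prod.smul_fst, smul_eq_mul]
    field_simp
  · simp

lemma dyn {K : Type*} [Field K] [Infinite K] (d : ℕ) (f A : K[X]) (hA : A.natDegree ≤ d)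
    (a b c e lam : K) (h : cm d f a b c e = A * C lam) (Z : K × K) :
    hev d f (ph a b c e Z) = lam * hev d A Z := by
  have key : ∀ Z : K × K, Z.2 ≠ 0 → hev d f (ph a b c e Z) = lam * hev d A Z := by
    intro Z hZ
    conv_lhs => rw [vec_eq Z hZ]
    rw [ph_smul, hev_smul, ← cm_eval, h, eval_mul, eval_C, hev_eval d A hA Z hZ]
    ring
  have h1 := ext0 (hc d f (C (ph a b c e Z).1 + X * C b) (C (ph a b c e Z).2 + X * C e))
    (C lam * hc d A (C Z.1) (C Z.2 + X * C 1)) (C Z.2 + X * C 1) (lin_ne _ _ one_ne_zero) (by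
      intro t ht
      rw [hc_eval, eval_mul, hc_eval, eval_C]
      have h2 := key (Z.1, Z.2 + t) (by simpa using ht)
      have h3 : ph a b c e (Z.1, Z.2 + t) =
          (eval t (C (ph a b c e Z).1 + X * C b), eval t (C (ph a b c e Z).2 + X * C e)) := by
        unfold ph
        ext
        · simp
          ring
        · simp
          ring
      rw [← h3, h2]
      simp)
  rw [hc_eval, eval_mul, hc_eval, eval_C] at h1
  simpa using h1

/-- proportional, in the new coordinates, to a vector over `k` -/
def IsK (k : Type*) {K : Type*} [Field k] [Field K] [Algebra k K] (a b c e : K) (Z : K × K) :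
    Prop := ∃ (s : K) (σ : k × k), ph a b c e Z = s • ((algebraMap k K σ.1, algebraMap k K σ.2) :
      K × K)

lemma isK_bK (k : Type*) {K : Type*} [Field k] [Field K] [Infinite K] [Algebra k K] (d : ℕ)
    (p q : K[X]) (a b c e lam : K) (hl : lam ≠ 0) (u w : k[X])
    (hA : (C a * p + C b * q).natDegree ≤ d) (hB : (C c * p + C e * q).natDegree ≤ d)
    (hU : cm d (u.map (algebraMap k K)) a b c e = (C a * p + C b * q) * C lam)
    (hW : cm d (w.map (algebraMap k K)) a b c e = (C c * p + C e * q) * C lam) (Z : K × K)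
    (hZ : IsK k a b c e Z) : IsK k a b c e (bK d p q Z) := by
  obtain ⟨s, σ, hσ⟩ := hZ
  refine ⟨s ^ d / lam, (hev d u σ, hev d w σ), ?_⟩
  have h1 := dyn d _ _ hA a b c e lam hU Z
  have h2 := dyn d _ _ hB a b c e lam hW Z
  have h3 : ∀ f : k[X], hev d (f.map (algebraMap k K))
      ((algebraMap k K σ.1, algebraMap k K σ.2) : K × K) = algebraMap k K (hev d f σ) :=
    fun f => hev_mapF (algebraMap k K) d f σ
  rw [hσ, hev_smul, h3] at h1 h2
  rw [ph_bK]
  ext
  · simp only [Prod.smul_fst, smul_eq_mul]
    field_simp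
    rw [mul_comm, ← h1]
  · simp only [Prod.smul_snd, smul_eq_mul]
    field_simp
    rw [mul_comm, ← h2]

lemma deg_le_max {K : Type*} [Field K] (A B : K[X]) (r s t : K) :
    (C r * (C s * A + C t * B)).natDegree ≤ max A.natDegree B.natDegree := by
  refine (natDegree_C_mul_le _ _).trans ((natDegree_add_le _ _).trans (max_le_max ?_ ?_))
  · exact natDegree_C_mul_le _ _
  · exact natDegree_C_mul_le _ _

/-- the conjugate map -/
lemma conj (k : Type*) {K : Type*} [Field k] [Field K] [Infinite K] [Algebra k K] (d : ℕ)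
    (hd : 2 ≤ d) (p q : K[X]) (hmax : max p.natDegree q.natDegree = d) (hco : IsCoprime p q)
    (a b c e : K) (hD : a * e - b * c ≠ 0) (u w : k[X]) (huw : u ≠ 0 ∨ w ≠ 0)
    (hu : u.natDegree ≤ d) (hw : w.natDegree ≤ d)
    (heq : (C a * p + C b * q) * cm d (w.map (algebraMap k K)) a b c e =
      (C c * p + C e * q) * cm d (u.map (algebraMap k K)) a b c e) :
    ∃ lam : K, lam ≠ 0 ∧
    cm d (u.map (algebraMap k K)) a b c e = (C a * p + C b * q) * C lam ∧
    cm d (w.map (algebraMap k K)) a b c e = (C c * p + C e * q) * C lam := by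
  obtain ⟨α, β, hαβ⟩ := hco
  set U := cm d (u.map (algebraMap k K)) a b c e with hU
  set V := cm d (w.map (algebraMap k K)) a b c e with hV
  set Ci : K[X] := C (a * e - b * c)⁻¹ with hCi
  have hd1 : Ci * (C a * C e - C b * C c) = 1 := by
    rw [hCi, ← C_mul, ← C_mul, ← C_sub, ← C_mul, inv_mul_cancel₀ hD, C_1]
  obtain ⟨g, hg⟩ : ∃ g, g = Ci * ((α * C e - β * C c) * U + (β * C a - α * C b) * V) := ⟨_, rfl⟩
  have hUg : U = (C a * p + C b * q) * g := by
    rw [hg]
    linear_combination (-U) * hαβ - U * (α * p + β * q) * hd1 - Ci * (β * C a - α * C b) * heq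
  have hVg : V = (C c * p + C e * q) * g := by
    rw [hg]
    linear_combination (-V) * hαβ - V * (α * p + β * q) * hd1 + Ci * (α * C e - β * C c) * heq
  have hinj := (algebraMap k K).injective
  have hg0 : g ≠ 0 := by
    intro h0
    rw [h0, mul_zero] at hUg hVg
    rcases huw with h | h
    · apply h
      have h1 := cm_inj d _ (by rw [natDegree_map_eq_of_injective hinj]; exact hu) a b c e hD hUg
      exact (Polynomial.map_eq_zero_iff hinj).mp h1
    · apply h
      have h1 := cm_inj d _ (by rw [natDegree_map_eq_of_injective hinj]; exact hw) a b c e hD hVg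
      exact (Polynomial.map_eq_zero_iff hinj).mp h1
  have hUd : U.natDegree ≤ d := cm_degree _ _ _ _ _ _
  have hVd : V.natDegree ≤ d := cm_degree _ _ _ _ _ _
  have hpe : p = Ci * (C e * (C a * p + C b * q) + C (-b) * (C c * p + C e * q)) := by
    rw [C_neg]
    linear_combination (-p) * hd1
  have hqe : q = Ci * (C (-c) * (C a * p + C b * q) + C a * (C c * p + C e * q)) := by
    rw [C_neg]
    linear_combination (-q) * hd1
  have hdm : d ≤ max (C a * p + C b * q).natDegree (C c * p + C e * q).natDegree := by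
    rw [← hmax]
    apply max_le
    · conv_lhs => rw [hpe]
      exact deg_le_max _ _ _ _ _
    · conv_lhs => rw [hqe]
      exact deg_le_max _ _ _ _ _
  have hgd : g.natDegree = 0 := by
    rcases le_max_iff.mp hdm with h | h
    · have h0 : (C a * p + C b * q) ≠ 0 := by
        intro h1
        rw [h1, natDegree_zero] at h
        omega
      have h1 := natDegree_mul h0 hg0
      rw [← hUg] at h1
      omega
    · have h0 : (C c * p + C e * q) ≠ 0 := by
        intro h1
        rw [h1, natDegree_zero] at h
        omega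
      have h1 := natDegree_mul h0 hg0
      rw [← hVg] at h1
      omega
  have hgC : g = C (g.coeff 0) := eq_C_of_natDegree_eq_zero hgd
  refine ⟨g.coeff 0, ?_, ?_, ?_⟩
  · intro h
    apply hg0
    rw [hgC, h, C_0]
  · rw [← hgC]
    exact hUg
  · rw [← hgC]
    exact hVg

lemma wd_add {K : Type*} [Field K] (Z Y V : K × K) (t : K) :
    wd ((Z.1 + t * Y.1, Z.2 + t * Y.2) : K × K) V = wd Z V + t * wd Y V := by
  unfold wd
  ring

/-- the critical points -/
lemma crit_form (k : Type*) {K : Type*} [Field k] [Field K] [Infinite K] [Algebra k K] (d : ℕ)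
    (hd : 2 ≤ d) (p q : K[X]) (a b c e : K) (hD : a * e - b * c ≠ 0) (u w : k[X])
    (hu : u.natDegree ≤ d) (hw : w.natDegree ≤ d) (lam : K)
    (hU : cm d (u.map (algebraMap k K)) a b c e = (C a * p + C b * q) * C lam)
    (hW : cm d (w.map (algebraMap k K)) a b c e = (C c * p + C e * q) * C lam)
    (Cr : Fin (2 * d - 2) → K × K) (hCr : Crit d p q Cr) (Z : K × K) :
    hev (2 * d - 2) ((derivative u * w - u * derivative w).map (algebraMap k K))
      (ph a b c e Z) = lam ^ 2 * ∏ i, wd Z (Cr i) := by
  have hinj := (algebraMap k K).injective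
  set j := algebraMap k K with hj
  have huj : (u.map j).natDegree ≤ d := by rw [natDegree_map_eq_of_injective hinj]; exact hu
  have hwj : (w.map j).natDegree ≤ d := by rw [natDegree_map_eq_of_injective hinj]; exact hw
  have hVm : (derivative u * w - u * derivative w).map j =
      derivative (u.map j) * w.map j - u.map j * derivative (w.map j) := by
    rw [Polynomial.map_sub, Polynomial.map_mul, Polynomial.map_mul, derivative_map, derivative_map]
  have hVd : ((derivative u * w - u * derivative w).map j).natDegree ≤ 2 * d - 2 := by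
    rw [hVm]
    exact Pool.Agent.Y195.CH.wr_deg d (by omega) _ _ huj hwj
  have hpt : ∀ x : K, c * x + e ≠ 0 →
      (c * x + e) ^ (2 * d - 2) * ((derivative u * w - u * derivative w).map j).eval
        ((a * x + b) / (c * x + e)) = lam ^ 2 * ∏ i, wd ((x, 1) : K × K) (Cr i) := by
    intro x hx
    have h1 := cm_wr d (u.map j) (w.map j) huj hwj a b c e x hx (by omega)
    rw [← hVm, hU, hW] at h1
    have h2 : derivative ((C a * p + C b * q) * C lam) * ((C c * p + C e * q) * C lam) -
        (C a * p + C b * q) * C lam * derivative ((C c * p + C e * q) * C lam) =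
        C lam ^ 2 * (C a * C e - C b * C c) * (derivative p * q - p * derivative q) := by
      simp only [derivative_mul, derivative_add, derivative_C, mul_zero, zero_mul, add_zero,
        zero_add]
      ring
    rw [h2, eval_mul, hCr.2 x] at h1
    simp only [eval_mul, eval_pow, eval_sub, eval_C] at h1
    have h3 : (a * e - b * c) * ((c * x + e) ^ (2 * d - 2) *
        eval ((a * x + b) / (c * x + e)) (map j (derivative u * w - u * derivative w))) =
        (a * e - b * c) * (lam ^ 2 * ∏ i, wd ((x, 1) : K × K) (Cr i)) := by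
      linear_combination -h1
    exact mul_left_cancel₀ hD h3
  have key : ∀ Z : K × K, Z.2 ≠ 0 → (ph a b c e Z).2 ≠ 0 →
      hev (2 * d - 2) ((derivative u * w - u * derivative w).map j)
      (ph a b c e Z) = lam ^ 2 * ∏ i, wd Z (Cr i) := by
    intro Z hZ hZ2
    set x := Z.1 / Z.2 with hx
    have hZe : Z = Z.2 • ((x, 1) : K × K) := vec_eq Z hZ
    have hxe : c * x + e ≠ 0 := by
      intro h
      apply hZ2
      rw [hZe, ph_smul]
      simp [ph, h]
    have e1 : ∀ i, wd Z (Cr i) = Z.2 * wd ((x, 1) : K × K) (Cr i) := by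
      intro i
      conv_lhs => rw [hZe]
      unfold wd
      simp only [Prod.smul_fst, Prod.smul_snd, smul_eq_mul]
      ring
    rw [Finset.prod_congr rfl fun i _ => e1 i, Finset.prod_mul_distrib, Finset.prod_const,
      Finset.card_univ, Fintype.card_fin]
    conv_lhs => rw [hZe]
    rw [ph_smul, hev_smul, hev_eval _ _ hVd]
    · have h1 := hpt x hxe
      have h2 : (ph a b c e (x, 1)).2 = c * x + e := by simp [ph]
      have h3 : (ph a b c e (x, 1)).1 = a * x + b := by simp [ph]
      rw [h2, h3, h1]
      ring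
    · simpa [ph] using hxe
  obtain ⟨Y, hY2, hYp⟩ : ∃ Y : K × K, Y.2 ≠ 0 ∧ (ph a b c e Y).2 ≠ 0 := by
    by_cases he : e = 0
    · refine ⟨(1, 1), by simp, ?_⟩
      have hc : c ≠ 0 := by
        rintro rfl
        apply hD
        rw [he]
        ring
      simpa [ph, he] using hc
    · exact ⟨(0, 1), by simp, by simpa [ph] using he⟩
  have h1 := ext0 (hc (2 * d - 2) ((derivative u * w - u * derivative w).map j)
      (C (ph a b c e Z).1 + X * C (ph a b c e Y).1) (C (ph a b c e Z).2 + X * C (ph a b c e Y).2))
    (C (lam ^ 2) * ∏ i, (C (wd Z (Cr i)) + X * C (wd Y (Cr i))))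
    ((C Z.2 + X * C Y.2) * (C (ph a b c e Z).2 + X * C (ph a b c e Y).2))
    (mul_ne_zero (lin_ne _ _ hY2) (lin_ne _ _ hYp)) (by
      intro t ht
      rw [eval_mul] at ht
      have ht1 := left_ne_zero_of_mul ht
      have ht2 := right_ne_zero_of_mul ht
      rw [hc_eval, eval_mul, eval_prod, eval_C]
      have h3 : ph a b c e (Z.1 + t * Y.1, Z.2 + t * Y.2) =
          (eval t (C (ph a b c e Z).1 + X * C (ph a b c e Y).1),
            eval t (C (ph a b c e Z).2 + X * C (ph a b c e Y).2)) := by
        unfold ph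
        ext
        · simp
          ring
        · simp
          ring
      have h2 := key (Z.1 + t * Y.1, Z.2 + t * Y.2) (by
        intro h0
        apply ht1
        rw [eval_add, eval_mul, eval_X, eval_C, eval_C]
        exact h0) (by
        rw [h3]
        exact ht2)
      rw [← h3, h2]
      congr 1
      apply Finset.prod_congr rfl
      intro i _
      rw [wd_add, eval_add, eval_mul, eval_X, eval_C, eval_C])
  rw [hc_eval, eval_mul, eval_prod, eval_C] at h1
  simpa using h1

/-- the orbits of the critical points are defined over `k`, up to scaling -/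
theorem orbK (k : Type*) {K : Type*} [Field k] [Field K] [CharZero K] [Algebra k K]
    (hcl : ∀ x : K, IsAlgebraic k x → ∃ c : k, algebraMap k K c = x) (d : ℕ)
    (hd : 2 ≤ d) (p q : K[X]) (hmax : max p.natDegree q.natDegree = d) (hco : IsCoprime p q)
    (a b c e : K) (hD : a * e - b * c ≠ 0) (u w : k[X]) (huw : u ≠ 0 ∨ w ≠ 0)
    (hu : u.natDegree ≤ d) (hw : w.natDegree ≤ d)
    (heq : (C a * p + C b * q) * cm d (w.map (algebraMap k K)) a b c e =
      (C c * p + C e * q) * cm d (u.map (algebraMap k K)) a b c e)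
    (Cr : Fin (2 * d - 2) → K × K) (hCr : Crit d p q Cr) (i : Fin (2 * d - 2)) (m : ℕ) :
    IsK k a b c e ((bK d p q)^[m] (Cr i)) := by
  have : Infinite K := inferInstance
  obtain ⟨lam, hl, hU, hW⟩ := conj k d hd p q hmax hco a b c e hD u w huw hu hw heq
  have hp : p.natDegree ≤ d := by rw [← hmax]; exact le_max_left _ _
  have hq : q.natDegree ≤ d := by rw [← hmax]; exact le_max_right _ _
  have hA : ∀ a b : K, (C a * p + C b * q).natDegree ≤ d := by
    intro a b
    refine (natDegree_add_le _ _).trans (max_le ?_ ?_)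
    · exact (natDegree_C_mul_le _ _).trans hp
    · exact (natDegree_C_mul_le _ _).trans hq
  have hbase : IsK k a b c e (Cr i) := by
    have h1 := crit_form k d hd p q a b c e hD u w hu hw lam hU hW Cr hCr (Cr i)
    have h2 : ∏ l, wd (Cr i) (Cr l) = 0 := by
      apply Finset.prod_eq_zero (Finset.mem_univ i)
      unfold wd
      ring
    rw [h2, mul_zero] at h1
    set W := derivative u * w - u * derivative w with hWd
    have hW0 : W ≠ 0 := by
      intro h0
      have h3 : ∀ x : K, (derivative p * q - p * derivative q).eval x = 0 := by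
        intro x
        have h4 := crit_form k d hd p q a b c e hD u w hu hw lam hU hW Cr hCr (x, 1)
        rw [← hWd, h0, Polynomial.map_zero] at h4
        have h5 : hev (2 * d - 2) (0 : K[X]) (ph a b c e (x, 1)) = 0 := by
          unfold hev
          simp
        rw [h5] at h4
        rw [hCr.2 x]
        exact (mul_eq_zero.mp h4.symm).resolve_left (pow_ne_zero _ hl)
      apply Pool.Agent.Y195.CH.wr_ne p q hco (by omega)
      apply Polynomial.funext
      intro x
      rw [h3 x, eval_zero]
    by_cases h3 : (ph a b c e (Cr i)).2 = 0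
    · refine ⟨(ph a b c e (Cr i)).1, (1, 0), ?_⟩
      ext
      · simp
      · simpa using h3
    · have hinj := (algebraMap k K).injective
      have hWdeg : (W.map (algebraMap k K)).natDegree ≤ 2 * d - 2 := by
        rw [natDegree_map_eq_of_injective hinj]
        exact Pool.Agent.Y195.CH.wr_deg d (by omega) _ _ hu hw
      rw [hev_eval _ _ hWdeg _ h3] at h1
      have h4 := (mul_eq_zero.mp h1).resolve_left (pow_ne_zero _ h3)
      obtain ⟨r, hr⟩ := hcl ((ph a b c e (Cr i)).1 / (ph a b c e (Cr i)).2) ⟨W, hW0, by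
        rw [← eval_map_algebraMap]
        exact h4⟩
      refine ⟨(ph a b c e (Cr i)).2, (r, 1), ?_⟩
      simp only [hr, map_one]
      exact vec_eq _ h3
  induction m with
  | zero => exact hbase
  | succ m ih =>
    rw [Function.iterate_succ_apply']
    exact isK_bK k d p q a b c e lam hl u w (hA _ _) (hA _ _) hU hW _ ih

end Pool.Agent.Y547.CH
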